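import Pool.Agent.Helper24_LeoD.Int

/-!
Squad leod, module LCV: `z t³` at one prime above 3.
-/

set_option autoImplicit false

open NumberField IsDedekindDomain WithZero Module
open Pool.Agent.Helper85_Leo Pool.Agent.Leo3 Pool.Agent.LeoK Pool.Agent.Leo3.H93
open Pool.Agent.LeoG.H24

namespace Pool.Agent.LeoD.H71

lemma close_mul {a b a' b' : Om} {δ : ℝ} (h1 : ‖a - a'‖ ≤ δ) (h2 : ‖b - b'‖ ≤ δ) (hb : ‖b‖ ≤ 1)
    (ha : ‖a'‖ ≤ 1) : ‖a * b - a' * b'‖ ≤ δ := by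
  have hδ : 0 ≤ δ := (norm_nonneg _).trans h1
  have e : a * b - a' * b' = (a - a') * b + a' * (b - b') := by ring
  rw [e]
  refine (IsUltrametricDist.norm_add_le_max _ _).trans (max_le ?_ ?_)
  · rw [norm_mul]
    calc ‖a - a'‖ * ‖b‖ ≤ δ * 1 := mul_le_mul h1 hb (norm_nonneg _) hδ
      _ = δ := mul_one _
  · rw [norm_mul]
    calc ‖a'‖ * ‖b - b'‖ ≤ 1 * δ := mul_le_mul ha h2 (norm_nonneg _) zero_le_one
      _ = δ := one_mul _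

lemma close_add {a b : Om} {δ : ℝ} (h1 : ‖a‖ ≤ δ) (h2 : ‖b‖ ≤ δ) : ‖a + b‖ ≤ δ :=
  (IsUltrametricDist.norm_add_le_max _ _).trans (max_le h1 h2)

lemma close_sub {a b : Om} {δ : ℝ} (h1 : ‖a‖ ≤ δ) (h2 : ‖b‖ ≤ δ) : ‖a - b‖ ≤ δ := by
  rw [sub_eq_add_neg]
  exact close_add h1 (by rwa [norm_neg])

lemma norm_one_of_root {g : Om} (h : ∃ j : ℕ, g ^ 3 ^ j = 1) : ‖g‖ = 1 := by
  obtain ⟨j, hj⟩ := h
  have h1 : ‖g‖ ^ 3 ^ j = 1 := by rw [← norm_pow, hj, norm_one]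
  exact (pow_eq_one_iff_of_nonneg (norm_nonneg _) (by positivity)).1 h1

variable {k K : Type} [Field k] [NumberField k] [Field K] [NumberField K] [Algebra k K]
  {m : 𝓞 k} {s : 𝓞 K} {c : K ≃ₐ[k] K}

lemma s_ne (h : QExt k K m s c) : (s : K) ≠ 0 := by
  intro hs
  have h1 := h.sq
  rw [hs, zero_pow (by norm_num)] at h1
  have h2 : (3 * (m : k)) = 0 := by
    apply (algebraMap k K).injective
    rw [← h1, map_zero]
  exact h.nsq 0 (by rw [h2]; norm_num)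

/-- the norm of an integer of `K` -/
lemma norm_int (h : QExt k K m s c) (t : 𝓞 K) :
    ∃ ν : 𝓞 k, (t : K) * c (t : K) = algebraMap k K (ν : k) := by
  obtain ⟨a, b, hab⟩ := H24.qspan h (t : K)
  have hc : c (t : K) = algebraMap k K a - algebraMap k K b * s := by
    rw [hab, map_add, map_mul, c.commutes, c.commutes, h.conj]
    ring
  have hN : algebraMap k K (a ^ 2 - 3 * (m : k) * b ^ 2) = (t : K) * c (t : K) := by
    have h3 : (t : K) * c (t : K) = algebraMap k K a ^ 2 - (s : K) ^ 2 * algebraMap k K b ^ 2 := by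
      rw [hc, hab]
      ring
    rw [h3, h.sq, map_sub, map_pow, map_mul, map_pow]
  have h1 : IsIntegral ℤ ((t : K) * c (t : K)) :=
    (RingOfIntegers.isIntegral_coe t).mul ((RingOfIntegers.isIntegral_coe t).map
      (c.toAlgHom.restrictScalars ℤ))
  rw [← hN] at h1
  have h2 : IsIntegral ℤ (a ^ 2 - 3 * (m : k) * b ^ 2) :=
    (isIntegral_algebraMap_iff (algebraMap k K).injective).1 h1
  exact ⟨⟨_, h2⟩, hN.symm⟩

lemma rho_om {ω : Om} (hω : ω ^ 2 = -3) (ρ : Om ≃ₐ[ℚ_[3]] Om) : ρ ω = ω ∨ ρ ω = -ω := by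
  have h1 : (ρ ω) ^ 2 = ω ^ 2 := by
    rw [← map_pow, hω, map_neg, map_ofNat]
  exact sq_eq_sq_iff_eq_or_eq_neg.1 h1

lemma main_two (hint : IntStmt) (hapo : ApoStmt) (h : QExt k K m s c)
    (p : HeightOneSpectrum (𝓞 k)) (φ : K →+* Om) (h3 : (3 : 𝓞 k) ∈ p.asIdeal)
    (hψ : Ov p (φ.comp (algebraMap k K))) {ω : Om} (hω : ω ^ 2 = -3) {g : Om}
    (hg : Tor (φ.comp (algebraMap k K)) ω g) {μ' : Om}
    (hμ : InLoc (φ.comp (algebraMap k K)) μ') (hs : φ (s : K) = μ' * ω) {η T : Om} (hT : ‖T‖ = 1)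
    (hη : η = g ^ 3 * T) (M : ℕ) (z : (𝓞 K)ˣ) (hz : ((z : 𝓞 K) : K) * c ((z : 𝓞 K) : K) = 1)
    (hzη : ‖φ ((z : 𝓞 K) : K) - η‖ ≤ (3 : ℝ)⁻¹ ^ M) :
    ∃ (t : 𝓞 K) (ν : 𝓞 k), (t : K) * c (t : K) = algebraMap k K (ν : k) ∧
      ν - 1 ∈ p.asIdeal ^ M ∧
      ‖φ (((z : 𝓞 K) * t ^ 3 : 𝓞 K) : K) - T‖ ≤ (3 : ℝ)⁻¹ ^ M ∧
      ‖φ (c (((z : 𝓞 K) * t ^ 3 : 𝓞 K) : K)) - T⁻¹‖ ≤ (3 : ℝ)⁻¹ ^ M := by
  have hg1 : ‖g‖ = 1 := norm_one_of_root hg.ord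
  have hg0 : g ≠ 0 := by
    intro h0
    rw [h0, norm_zero] at hg1
    exact zero_ne_one hg1
  have hT0 : T ≠ 0 := by
    intro h0
    rw [h0, norm_zero] at hT
    exact zero_ne_one hT
  have hφs : φ (s : K) ≠ 0 := by
    rw [Ne, map_eq_zero]
    exact s_ne h
  have h2 : (2 : Om) ≠ 0 := two_ne_zero
  have hgi : ‖g⁻¹‖ = 1 := by rw [norm_inv, hg1, inv_one]
  have hcase : ∀ ρ : Om ≃ₐ[ℚ_[3]] Om, FixF (φ.comp (algebraMap k K)) ρ →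
      (ρ g = g ∧ ρ (φ s) = φ s) ∨ (ρ g = g⁻¹ ∧ ρ (φ s) = -φ s) := by
    intro ρ hρ
    rcases rho_om hω ρ with h4 | h4
    · left
      refine ⟨hg.fix ρ hρ h4, ?_⟩
      rw [hs, map_mul, hμ ρ hρ, h4]
    · right
      refine ⟨hg.inv ρ hρ h4, ?_⟩
      rw [hs, map_mul, hμ ρ hρ, h4]
      ring
  have hA : InLoc (φ.comp (algebraMap k K)) ((g + g⁻¹) / 2) := by
    intro ρ hρ
    rcases hcase ρ hρ with ⟨h4, _⟩ | ⟨h4, _⟩
    · rw [map_div₀, map_add, map_inv₀, h4, map_ofNat]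
    · rw [map_div₀, map_add, map_inv₀, h4, map_ofNat, inv_inv, add_comm]
  have hB : InLoc (φ.comp (algebraMap k K)) ((g⁻¹ - g) / (2 * φ s)) := by
    intro ρ hρ
    rcases hcase ρ hρ with ⟨h4, h5⟩ | ⟨h4, h5⟩
    · rw [map_div₀, map_sub, map_inv₀, map_mul, h4, h5, map_ofNat]
    · rw [map_div₀, map_sub, map_inv₀, map_mul, h4, h5, map_ofNat, inv_inv]
      field_simp
      ring
  have e1 : (g + g⁻¹) / 2 + (g⁻¹ - g) / (2 * φ s) * φ s = g⁻¹ := by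
    field_simp
    ring
  have e2 : (g + g⁻¹) / 2 - (g⁻¹ - g) / (2 * φ s) * φ s = g := by
    field_simp
    ring
  obtain ⟨t, ht1, ht2⟩ := (hint k K m s c h p φ h3 hψ).2.1 _ _ M hA hB
    (by rw [e1, hgi]) (by rw [e2, hg1])
  rw [e1] at ht1
  rw [e2] at ht2
  obtain ⟨ν, hν⟩ := norm_int h t
  have hφt : ‖φ (t : K)‖ ≤ 1 := norm_embedding_le_one φ t
  have hδ1 : (3 : ℝ)⁻¹ ^ M ≤ 1 := pow_le_one₀ (by norm_num) (by norm_num)
  have hφct : ‖φ (c (t : K))‖ ≤ 1 := by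
    have e3 : φ (c (t : K)) = (φ (c (t : K)) - g) + g := by ring
    rw [e3]
    exact close_add (ht2.trans hδ1) hg1.le
  have hφz : ‖φ ((z : 𝓞 K) : K)‖ ≤ 1 := norm_embedding_le_one φ (z : 𝓞 K)
  have hzc : φ ((z : 𝓞 K) : K) * φ (c ((z : 𝓞 K) : K)) = 1 := by
    rw [← map_mul, hz, map_one]
  have hη1 : ‖η‖ = 1 := by
    rw [hη, norm_mul, norm_pow, hg1, hT, one_pow, one_mul]
  have hη0 : η ≠ 0 := by
    intro h0
    rw [h0, norm_zero] at hη1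
    exact zero_ne_one hη1
  have hφz1 : ‖φ ((z : 𝓞 K) : K)‖ = 1 := by
    refine le_antisymm hφz ?_
    by_contra hlt
    rw [not_le] at hlt
    -- the inverse of the unit is an integer
    have h5 : ‖φ (((z⁻¹ : (𝓞 K)ˣ) : 𝓞 K) : K)‖ ≤ 1 := norm_embedding_le_one φ _
    have h6 : φ ((z : 𝓞 K) : K) * φ (((z⁻¹ : (𝓞 K)ˣ) : 𝓞 K) : K) = 1 := by
      rw [← map_mul]
      have h7 : ((z : 𝓞 K) : K) * (((z⁻¹ : (𝓞 K)ˣ) : 𝓞 K) : K) = 1 := by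
        have h8 : (z : 𝓞 K) * ((z⁻¹ : (𝓞 K)ˣ) : 𝓞 K) = 1 := z.mul_inv
        exact_mod_cast congrArg (fun u : 𝓞 K => (u : K)) h8
      rw [h7, map_one]
    have h9 : ‖φ ((z : 𝓞 K) : K)‖ * ‖φ (((z⁻¹ : (𝓞 K)ˣ) : 𝓞 K) : K)‖ = 1 := by
      rw [← norm_mul, h6, norm_one]
    have h10 : ‖φ ((z : 𝓞 K) : K)‖ * ‖φ (((z⁻¹ : (𝓞 K)ˣ) : 𝓞 K) : K)‖ ≤
        ‖φ ((z : 𝓞 K) : K)‖ * 1 := mul_le_mul_of_nonneg_left h5 (norm_nonneg _)
    rw [h9, mul_one] at h10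
    exact absurd h10 (not_le.2 hlt)
  have hφcz1 : ‖φ (c ((z : 𝓞 K) : K))‖ = 1 := by
    have h5 : ‖φ ((z : 𝓞 K) : K)‖ * ‖φ (c ((z : 𝓞 K) : K))‖ = 1 := by
      rw [← norm_mul, hzc, norm_one]
    rwa [hφz1, one_mul] at h5
  have hcz : ‖φ (c ((z : 𝓞 K) : K)) - η⁻¹‖ ≤ (3 : ℝ)⁻¹ ^ M := by
    have h5 : φ (c ((z : 𝓞 K) : K)) - η⁻¹ =
        φ (c ((z : 𝓞 K) : K)) * η⁻¹ * (η - φ ((z : 𝓞 K) : K)) := by
      have h6 : φ (c ((z : 𝓞 K) : K)) * η⁻¹ * (η - φ ((z : 𝓞 K) : K)) =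
          φ (c ((z : 𝓞 K) : K)) * (η⁻¹ * η) -
            η⁻¹ * (φ ((z : 𝓞 K) : K) * φ (c ((z : 𝓞 K) : K))) := by ring
      rw [h6, hzc, inv_mul_cancel₀ hη0, mul_one, mul_one]
    rw [h5, norm_mul, norm_mul, hφcz1, norm_inv, hη1, inv_one, one_mul, one_mul, norm_sub_rev]
    exact hzη
  -- cubes
  have hcube : ∀ {a b : Om}, ‖a - b‖ ≤ (3 : ℝ)⁻¹ ^ M → ‖a‖ ≤ 1 → ‖b‖ ≤ 1 →
      ‖a ^ 3 - b ^ 3‖ ≤ (3 : ℝ)⁻¹ ^ M := by
    intro a b hab ha hb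
    have h5 : ‖a * a - b * b‖ ≤ (3 : ℝ)⁻¹ ^ M := close_mul hab hab ha hb
    have h6 := close_mul h5 hab ha (show ‖b * b‖ ≤ 1 by
      rw [norm_mul]
      exact mul_le_one₀ hb (norm_nonneg _) hb)
    have h7 : a ^ 3 - b ^ 3 = a * a * a - b * b * b := by ring
    rw [h7]
    exact h6
  refine ⟨t, ν, hν, ?_, ?_, ?_⟩
  · refine (hapo k p (φ.comp (algebraMap k K)) h3 hψ).2 _ M ?_
    have h5 : (φ.comp (algebraMap k K)) ((ν - 1 : 𝓞 k) : k) =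
        φ (t : K) * φ (c (t : K)) - g⁻¹ * g := by
      have h6 : ((ν - 1 : 𝓞 k) : k) = (ν : k) - 1 := rfl
      rw [h6, map_sub, map_one, RingHom.comp_apply, ← hν, map_mul, inv_mul_cancel₀ hg0]
    rw [h5]
    exact close_mul ht1 ht2 hφct hgi.le
  · have h5 : φ (((z : 𝓞 K) * t ^ 3 : 𝓞 K) : K) - T =
        φ ((z : 𝓞 K) : K) * φ (t : K) ^ 3 - η * g⁻¹ ^ 3 := by
      have h6 : (((z : 𝓞 K) * t ^ 3 : 𝓞 K) : K) = ((z : 𝓞 K) : K) * (t : K) ^ 3 := rfl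
      have h7 : η * g⁻¹ ^ 3 = T := by
        rw [hη]
        field_simp
      rw [h6, map_mul, map_pow, h7]
    rw [h5]
    exact close_mul hzη (hcube ht1 hφt hgi.le) (by
      rw [norm_pow]
      exact pow_le_one₀ (norm_nonneg _) hφt) hη1.le
  · have h5 : φ (c (((z : 𝓞 K) * t ^ 3 : 𝓞 K) : K)) - T⁻¹ =
        φ (c ((z : 𝓞 K) : K)) * φ (c (t : K)) ^ 3 - η⁻¹ * g ^ 3 := by
      have h6 : (((z : 𝓞 K) * t ^ 3 : 𝓞 K) : K) = ((z : 𝓞 K) : K) * (t : K) ^ 3 := rfl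
      have h7 : η⁻¹ * g ^ 3 = T⁻¹ := by
        rw [hη]
        field_simp
      rw [h6, map_mul, map_pow, map_mul, map_pow, h7]
    rw [h5]
    exact close_mul hcz (hcube ht2 hφct hg1.le) (by
      rw [norm_pow]
      exact pow_le_one₀ (norm_nonneg _) hφct) (by rw [norm_inv, hη1, inv_one])

/-- the second alternative -/
lemma alt_two (hint : IntStmt) (hapo : ApoStmt) (h : QExt k K m s c)
    (p : HeightOneSpectrum (𝓞 k)) (φ : K →+* Om) (h3 : (3 : 𝓞 k) ∈ p.asIdeal)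
    (hψ : Ov p (φ.comp (algebraMap k K))) (M : ℕ) {P Q : 𝓞 k} {A Q' : Om}
    (hP : ‖φ (algebraMap k K (P : k)) - A‖ ≤ (3 : ℝ)⁻¹ ^ M)
    (hQ : ‖φ (algebraMap k K (Q : k)) - Q'‖ ≤ (3 : ℝ)⁻¹ ^ M) {T μ₁ : Om}
    (hμ : InLoc (φ.comp (algebraMap k K)) μ₁)
    (hμ2 : μ₁ ^ 2 = -φ (algebraMap k K (m : k)))
    (e1 : 3 * μ₁ * (T - A) = Q' * φ s) (e2 : 3 * μ₁ * (T⁻¹ - A) = -(Q' * φ s)) (y : 𝓞 K)
    (hy1 : ‖φ (y : K) - T‖ ≤ (3 : ℝ)⁻¹ ^ M) (hy2 : ‖φ (c (y : K)) - T⁻¹‖ ≤ (3 : ℝ)⁻¹ ^ M)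
    (hy3 : ‖φ (c (y : K))‖ ≤ 1) : ZT m s p M P Q y := by
  right
  have hm1 : ‖φ (algebraMap k K (m : k))‖ ≤ 1 :=
    norm_embedding_le_one (φ.comp (algebraMap k K)) m
  have hμ1 : ‖μ₁‖ ≤ 1 := by
    have h5 : ‖μ₁‖ ^ 2 ≤ 1 := by
      rw [← norm_pow, hμ2, norm_neg]
      exact hm1
    by_contra hcon
    rw [not_le] at hcon
    exact absurd h5 (not_le.2 (one_lt_pow₀ hcon (by norm_num)))
  obtain ⟨μ, hμa⟩ := (hapo k p (φ.comp (algebraMap k K)) h3 hψ).1 μ₁ M hμ hμ1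
  rw [RingHom.comp_apply] at hμa
  have hφμ : ‖φ (algebraMap k K (μ : k))‖ ≤ 1 :=
    norm_embedding_le_one (φ.comp (algebraMap k K)) μ
  have hφP : ‖φ (algebraMap k K (P : k))‖ ≤ 1 :=
    norm_embedding_le_one (φ.comp (algebraMap k K)) P
  have hs1 : ‖φ (s : K)‖ ≤ 1 := norm_embedding_le_one φ s
  have hy0 : ‖φ (y : K)‖ ≤ 1 := norm_embedding_le_one φ y
  have h31 : ‖(3 : Om)‖ ≤ 1 := by
    have h5 : ‖φ (((3 : 𝓞 K)) : K)‖ ≤ 1 := norm_embedding_le_one φ 3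
    have h6 : φ (((3 : 𝓞 K)) : K) = 3 := by
      have h7 : (((3 : 𝓞 K)) : K) = 3 := rfl
      rw [h7, map_ofNat]
    rwa [h6] at h5
  have hkey : ∀ {w T' : Om}, ‖w - T'‖ ≤ (3 : ℝ)⁻¹ ^ M → ‖w‖ ≤ 1 →
      ‖3 * φ (algebraMap k K (μ : k)) * (w - φ (algebraMap k K (P : k))) -
        3 * μ₁ * (T' - A)‖ ≤ (3 : ℝ)⁻¹ ^ M := by
    intro w T' hw hw1
    have h5 : ‖(w - φ (algebraMap k K (P : k))) - (T' - A)‖ ≤ (3 : ℝ)⁻¹ ^ M := by
      have h6 : (w - φ (algebraMap k K (P : k))) - (T' - A) =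
          (w - T') - (φ (algebraMap k K (P : k)) - A) := by ring
      rw [h6]
      exact close_sub hw hP
    have h7 := close_mul hμa h5 (close_sub hw1 hφP) hμ1
    have h8 : 3 * φ (algebraMap k K (μ : k)) * (w - φ (algebraMap k K (P : k))) -
        3 * μ₁ * (T' - A) = 3 * (φ (algebraMap k K (μ : k)) * (w - φ (algebraMap k K (P : k))) -
          μ₁ * (T' - A)) := by ring
    rw [h8, norm_mul]
    calc ‖(3 : Om)‖ * _ ≤ 1 * (3 : ℝ)⁻¹ ^ M := mul_le_mul h31 h7 (norm_nonneg _) zero_le_one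
      _ = _ := one_mul _
  have hQs : ‖φ (algebraMap k K (Q : k)) * φ s - Q' * φ s‖ ≤ (3 : ℝ)⁻¹ ^ M := by
    rw [← sub_mul, norm_mul]
    calc _ ≤ (3 : ℝ)⁻¹ ^ M * 1 := mul_le_mul hQ hs1 (norm_nonneg _) (by positivity)
      _ = _ := mul_one _
  refine ⟨μ, ?_, ?_⟩
  · refine (hapo k p (φ.comp (algebraMap k K)) h3 hψ).2 _ M ?_
    have h5 : (φ.comp (algebraMap k K)) ((μ ^ 2 + m : 𝓞 k) : k) =
        φ (algebraMap k K (μ : k)) * φ (algebraMap k K (μ : k)) - μ₁ * μ₁ := by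
      have h6 : ((μ ^ 2 + m : 𝓞 k) : k) = (μ : k) ^ 2 + (m : k) := rfl
      rw [h6, RingHom.comp_apply, map_add, map_add, map_pow, map_pow]
      have h7 : φ (algebraMap k K (m : k)) = -μ₁ ^ 2 := by rw [hμ2, neg_neg]
      rw [h7]
      ring
    rw [h5]
    exact close_mul hμa hμa hφμ hμ1
  · refine (hint k K m s c h p φ h3 hψ).2.2 _ M ?_ ?_
    · have h5 : φ ((3 * algebraMap (𝓞 k) (𝓞 K) μ * (y - algebraMap (𝓞 k) (𝓞 K) P) -
          algebraMap (𝓞 k) (𝓞 K) Q * s : 𝓞 K) : K) =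
          (3 * φ (algebraMap k K (μ : k)) * (φ (y : K) - φ (algebraMap k K (P : k))) -
            3 * μ₁ * (T - A)) - (φ (algebraMap k K (Q : k)) * φ s - Q' * φ s) := by
        have h6 : ((3 * algebraMap (𝓞 k) (𝓞 K) μ * (y - algebraMap (𝓞 k) (𝓞 K) P) -
            algebraMap (𝓞 k) (𝓞 K) Q * s : 𝓞 K) : K) =
            3 * algebraMap k K (μ : k) * ((y : K) - algebraMap k K (P : k)) -
              algebraMap k K (Q : k) * (s : K) := rfl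
        rw [h6]
        simp only [map_sub, map_mul, map_ofNat]
        rw [e1]
        ring
      rw [h5]
      exact close_sub (hkey hy1 hy0) hQs
    · have h5 : φ (c ((3 * algebraMap (𝓞 k) (𝓞 K) μ * (y - algebraMap (𝓞 k) (𝓞 K) P) -
          algebraMap (𝓞 k) (𝓞 K) Q * s : 𝓞 K) : K)) =
          (3 * φ (algebraMap k K (μ : k)) * (φ (c (y : K)) - φ (algebraMap k K (P : k))) -
            3 * μ₁ * (T⁻¹ - A)) + (φ (algebraMap k K (Q : k)) * φ s - Q' * φ s) := by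
        have h6 : ((3 * algebraMap (𝓞 k) (𝓞 K) μ * (y - algebraMap (𝓞 k) (𝓞 K) P) -
            algebraMap (𝓞 k) (𝓞 K) Q * s : 𝓞 K) : K) =
            3 * algebraMap k K (μ : k) * ((y : K) - algebraMap k K (P : k)) -
              algebraMap k K (Q : k) * (s : K) := rfl
        rw [h6]
        simp only [map_sub, map_mul, map_ofNat, map_neg, AlgEquiv.commutes, h.conj]
        rw [e2]
        ring
      rw [h5]
      exact close_add (hkey hy2 hy3) hQs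

/-- LCV -/
theorem lcv (hapo : ApoStmt) (hint : IntStmt) : LcvStmt := by
  intro k K _ _ _ _ _ m s c h p φ h3 hψ ω τ hω hτ M P Q hP hQ η hη z hz hzη
  have hω0 : ω ≠ 0 := by
    intro h0
    rw [h0] at hω
    norm_num at hω
  have h2 : (2 : Om) ≠ 0 := two_ne_zero
  rcases hη with rfl | ⟨hη, μ', hμ', hs⟩
  · -- the limit is one
    refine ⟨1, 1, by simp, by simp, Or.inl ?_⟩
    have hzc : φ ((z : 𝓞 K) : K) * φ (c ((z : 𝓞 K) : K)) = 1 := by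
      rw [← map_mul, hz, map_one]
    have hφz : ‖φ ((z : 𝓞 K) : K)‖ ≤ 1 := norm_embedding_le_one φ (z : 𝓞 K)
    have hφcz : ‖φ (c ((z : 𝓞 K) : K))‖ ≤ 1 := by
      have h5 : ‖(φ.comp (c : K →+* K)) ((z : 𝓞 K) : K)‖ ≤ 1 := norm_embedding_le_one _ _
      exact h5
    refine (hint k K m s c h p φ h3 hψ).2.2 _ M ?_ ?_
    · have h5 : (((z : 𝓞 K) * 1 ^ 3 - 1 : 𝓞 K) : K) = ((z : 𝓞 K) : K) - 1 := by
        rw [one_pow, mul_one]
        rfl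
      rw [h5, map_sub, map_one]
      exact hzη
    · have h5 : (((z : 𝓞 K) * 1 ^ 3 - 1 : 𝓞 K) : K) = ((z : 𝓞 K) : K) - 1 := by
        rw [one_pow, mul_one]
        rfl
      rw [h5, map_sub, map_one, map_sub, map_one]
      have h6 : φ (c ((z : 𝓞 K) : K)) - 1 =
          φ (c ((z : 𝓞 K) : K)) * (1 - φ ((z : 𝓞 K) : K)) := by
        have h7 : φ (c ((z : 𝓞 K) : K)) * (1 - φ ((z : 𝓞 K) : K)) =
            φ (c ((z : 𝓞 K) : K)) - φ ((z : 𝓞 K) : K) * φ (c ((z : 𝓞 K) : K)) := by ring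
        rw [h7, hzc]
      rw [h6, norm_mul, norm_sub_rev]
      calc _ ≤ 1 * (3 : ℝ)⁻¹ ^ M := mul_le_mul hφcz hzη (norm_nonneg _) zero_le_one
        _ = _ := one_mul _
  · -- the limit is in the torsion group
    obtain ⟨hτ1, hτ2⟩ := hτ
    obtain ⟨g, hg, hgη⟩ := hτ2 η hη
    have hτn : ‖τ‖ = 1 := norm_one_of_root hτ1.ord
    have hτ0 : τ ≠ 0 := by
      intro h0
      rw [h0, norm_zero] at hτn
      exact zero_ne_one hτn
    have hμ2 : μ' ^ 2 = -φ (algebraMap k K (m : k)) := by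
      have h5 : φ ((s : K) ^ 2) = φ (algebraMap k K (3 * (m : k))) := by rw [h.sq]
      rw [map_pow, hs, mul_pow, hω, map_mul, map_mul, map_ofNat, map_ofNat] at h5
      have h6 : (3 : Om) ≠ 0 := three_ne_zero
      apply mul_right_cancel₀ h6
      linear_combination -h5
    have hint2 : ∀ t : 𝓞 K, ‖φ (c (((z : 𝓞 K) * t ^ 3 : 𝓞 K) : K))‖ ≤ 1 := by
      intro t
      have h5 : ‖(φ.comp (c : K →+* K)) (((z : 𝓞 K) * t ^ 3 : 𝓞 K) : K)‖ ≤ 1 :=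
        norm_embedding_le_one _ _
      exact h5
    rcases hgη with hgη | hgη | hgη
    · obtain ⟨t, ν, ht, hν, hy1, hy2⟩ := main_two hint hapo h p φ h3 hψ hω hg hμ' hs
        (T := 1) norm_one (by rw [hgη, mul_one]) M z hz hzη
      refine ⟨t, ν, ht, hν, Or.inl ?_⟩
      refine (hint k K m s c h p φ h3 hψ).2.2 _ M ?_ ?_
      · have h5 : (((z : 𝓞 K) * t ^ 3 - 1 : 𝓞 K) : K) =
            (((z : 𝓞 K) * t ^ 3 : 𝓞 K) : K) - 1 := rfl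
        rw [h5, map_sub, map_one]
        exact hy1
      · have h5 : (((z : 𝓞 K) * t ^ 3 - 1 : 𝓞 K) : K) =
            (((z : 𝓞 K) * t ^ 3 : 𝓞 K) : K) - 1 := rfl
        rw [h5, map_sub, map_one, map_sub, map_one]
        rwa [inv_one] at hy2
    · obtain ⟨t, ν, ht, hν, hy1, hy2⟩ := main_two hint hapo h p φ h3 hψ hω hg hμ' hs
        (T := τ) hτn hgη M z hz hzη
      refine ⟨t, ν, ht, hν, alt_two hint hapo h p φ h3 hψ M hP hQ (T := τ) (μ₁ := μ') hμ' hμ2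
        ?_ ?_ _ hy1 hy2 (hint2 t)⟩
      · rw [hs]
        field_simp
        ring
      · rw [hs]
        field_simp
        ring
    · obtain ⟨t, ν, ht, hν, hy1, hy2⟩ := main_two hint hapo h p φ h3 hψ hω hg hμ' hs
        (T := τ⁻¹) (by rw [norm_inv, hτn, inv_one]) hgη M z hz hzη
      refine ⟨t, ν, ht, hν, alt_two hint hapo h p φ h3 hψ M hP hQ (T := τ⁻¹) (μ₁ := -μ')
        (fun ρ hρ => by rw [map_neg, hμ' ρ hρ]) (by rw [neg_sq]; exact hμ2)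
        ?_ ?_ _ hy1 hy2 (hint2 t)⟩
      · rw [hs]
        field_simp
        ring
      · rw [hs, inv_inv]
        field_simp
        ring

end Pool.Agent.LeoD.H71
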