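import Mathlib
import Pool.Agent.LeoD.TowStmts
import Pool.Agent.Helper83_Leo3.Gup

/-!
# Squad LEOD, module WMU

If `WT k K` holds then there is no cube root of unity of relative norm 1 in `K`.
-/

set_option autoImplicit false

open NumberField NumberField.InfinitePlace IsDedekindDomain Module
open Pool.Agent.Helper85_Leo Pool.Agent.LeoK Pool.Agent.LeoG Pool.Agent.LeoC
open Pool.Agent.Leo3 (Om InLoc FixF)

namespace Pool.Agent.LeoD.H71

/-- the exponents of the 3-power torsion of a number field are bounded -/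
theorem exists_max (K : Type) [Field K] [NumberField K] :
    ∃ a : ℕ, (∃ g : K, IsPrimitiveRoot g (3 ^ a)) ∧
      ∀ b : ℕ, ∀ g : K, IsPrimitiveRoot g (3 ^ b) → b ≤ a := by
  have hbd : ∀ b : ℕ, ∀ g : K, IsPrimitiveRoot g (3 ^ b) → b ≤ finrank ℚ K := by
    intro b g hg
    have h0 : Nat.lcm (3 ^ b) (3 ^ b) = 3 ^ b := Nat.lcm_self _
    have h1 : Nat.totient (Nat.lcm (3 ^ b) (3 ^ b)) ≤ finrank ℚ K :=
      hg.lcm_totient_le_finrank hg (Polynomial.cyclotomic.irreducible_rat (by rw [h0]; positivity))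
    rw [h0] at h1
    rcases Nat.eq_zero_or_pos b with hb | hb
    · omega
    · rw [Nat.totient_prime_pow Nat.prime_three hb] at h1
      obtain ⟨c, rfl⟩ : ∃ c, b = c + 1 := ⟨b - 1, by omega⟩
      have h2 : c < 3 ^ c := Nat.lt_pow_self (by norm_num)
      simp only [Nat.add_sub_cancel] at h1
      omega
  classical
  have hex : ∃ b : ℕ, b ≤ finrank ℚ K ∧ ∃ g : K, IsPrimitiveRoot g (3 ^ b) :=
    ⟨0, Nat.zero_le _, 1, by simp⟩
  refine ⟨Nat.findGreatest (fun b => ∃ g : K, IsPrimitiveRoot g (3 ^ b)) (finrank ℚ K), ?_, ?_⟩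
  · obtain ⟨b, hb, hg⟩ := hex
    exact Nat.findGreatest_spec (P := fun b => ∃ g : K, IsPrimitiveRoot g (3 ^ b)) hb hg
  · intro b g hg
    exact Nat.le_findGreatest (hbd b g hg) ⟨g, hg⟩

/-- WMU -/
theorem wmu : WmuStmt := by
  intro k K _ _ _ _ _ τ h2 hτ hWT x hx3 hxt
  obtain ⟨a, ⟨g, hg⟩, hmax⟩ := exists_max K
  by_contra hx1
  -- `x` is a primitive cube root of unity
  have hox : orderOf x = 3 := orderOf_eq_prime hx3 hx1
  have hxp : IsPrimitiveRoot x (3 ^ 1) := by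
    have := IsPrimitiveRoot.orderOf x
    rwa [hox] at this
  have ha1 : 1 ≤ a := hmax 1 x hxp
  obtain ⟨c, rfl⟩ : ∃ c, a = c + 1 := ⟨a - 1, by omega⟩
  have hg0 : g ≠ 0 := hg.ne_zero (by positivity)
  have hτg0 : τ g ≠ 0 := by simpa using hg0
  have hgp : g ^ 3 ^ (c + 1) = 1 := hg.pow_eq_one
  have hxp' : x ^ 3 ^ (c + 1) = 1 := by
    rw [pow_succ' 3 c, pow_mul, hx3, one_pow]
  obtain ⟨i, -, hi⟩ := hg.eq_pow_of_pow_eq_one hxp'
  have hci : 3 ^ c ∣ i := by
    have h1 : g ^ (i * 3) = 1 := by rw [pow_mul, hi, hx3]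
    have h2 : 3 ^ (c + 1) ∣ i * 3 := hg.dvd_of_pow_eq_one _ h1
    rw [pow_succ] at h2
    exact Nat.dvd_of_mul_dvd_mul_right (by norm_num) h2
  -- the element `h`
  have hh0 : g / τ g ≠ 0 := div_ne_zero hg0 hτg0
  have hhp : (g / τ g) ^ 3 ^ (c + 1) = 1 := by
    rw [div_pow, ← map_pow, hgp, map_one, div_one]
  have hnorm : ∃ c : k, Algebra.norm k (g / τ g) = c ^ 3 := by
    refine ⟨1, ?_⟩
    have h0 : Algebra.norm k g ≠ 0 := Algebra.norm_ne_zero_iff.mpr hg0
    have h1 : Algebra.norm k (g / τ g) * Algebra.norm k g = Algebra.norm k g := by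
      conv_lhs => rw [← Algebra.norm_eq_of_algEquiv τ g, ← map_mul, div_mul_cancel₀ _ hτg0]
    rw [one_pow]
    exact mul_right_cancel₀ h0 (by rw [h1, one_mul])
  have hval : ValCube3 (g / τ g) := by
    intro q _
    refine ⟨1, ?_⟩
    rw [one_pow]
    have h1 : (q.valuation K (g / τ g)) ^ 3 ^ (c + 1) = 1 := by rw [← map_pow, hhp, map_one]
    exact (pow_eq_one_iff_of_nonneg zero_le (by positivity)).mp h1
  have hloc : LocTor (g / τ g) := by
    intro φ
    refine ⟨1, φ (g / τ g), fun ρ _ => map_one ρ, Pool.Agent.Leo3.H83.inLoc_self φ _,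
      ⟨c + 1, by rw [← map_pow, hhp, map_one]⟩, by rw [one_pow, mul_one]⟩
  obtain ⟨t, ht⟩ := hWT _ hh0 hnorm hval hloc
  have htp : t ^ 3 ^ (c + 1 + 1) = 1 := by
    rw [pow_succ' 3 (c + 1), pow_mul, ht, hhp]
  have ht1 : t ^ 3 ^ (c + 1) = 1 := by
    obtain ⟨b, hb, hob⟩ := (Nat.dvd_prime_pow Nat.prime_three).mp (orderOf_dvd_of_pow_eq_one htp)
    have h1 : IsPrimitiveRoot t (3 ^ b) := by
      have := IsPrimitiveRoot.orderOf t
      rwa [hob] at this
    have h2 := hmax b t h1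
    exact orderOf_dvd_iff_pow_eq_one.mp (hob ▸ pow_dvd_pow 3 h2)
  have hhc : (g / τ g) ^ 3 ^ c = 1 := by
    rw [← ht, ← pow_mul, ← pow_succ']
    exact ht1
  have hxτ : x / τ x = 1 := by
    obtain ⟨d, rfl⟩ := hci
    have h1 : x / τ x = (g / τ g) ^ (3 ^ c * d) := by
      rw [← hi, map_pow, div_pow]
    rw [h1, pow_mul, hhc, one_pow]
  have hx0 : x ≠ 0 := by
    intro h0
    rw [h0] at hx3
    norm_num at hx3
  have hτx : τ x = x := by
    have h0 : τ x ≠ 0 := by simpa using hx0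
    field_simp at hxτ
    exact hxτ.symm
  rw [hτx] at hxt
  apply hx1
  calc x = x * (x * x) := by rw [hxt, mul_one]
    _ = x ^ 3 := by ring
    _ = 1 := hx3

end Pool.Agent.LeoD.H71
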